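import Pool.Agent.U84.SP.Phi2

set_option autoImplicit false
set_option linter.unusedSectionVars false

/-!
# The class `α` is nef (job StNef)
-/

open Set Topology Filter
open scoped ContDiff

namespace Pool.Agent.U674.SP

open Pool.Agent.Y184.SP Pool.Agent.U84.SP

/-- extension from an open set -/
theorem ext_of {u : E → ℝ} {j : Fin 5} {z : E} {O : Set E} (hO : IsOpen O) (hz : z ∈ O) (F : E → ℝ)
    (h1 : ∀ z' ∈ O, ContDiffAt ℝ ∞ F z') (h2 : ∀ z' ∈ O, tr j z' ∈ W → F z' = u (tr j z')) :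
    ExtAt u j z :=
  ⟨F, smAt_open hO hz h1, by
    filter_upwards [hO.mem_nhds hz] with z' hz'
    exact h2 z' hz'⟩

theorem ext_congr {u u' : E → ℝ} {j : Fin 5} {z : E} (h : ExtAt u j z)
    (h1 : ∀ᶠ z' in 𝓝 z, tr j z' ∈ W → u (tr j z') = u' (tr j z')) : ExtAt u' j z := by
  obtain ⟨f, hf, h2⟩ := h
  refine ⟨f, hf, ?_⟩
  filter_upwards [h1, h2] with z' a b hW
  rw [b hW, a hW]

theorem ext_max {u u' : E → ℝ} {j : Fin 5} {z : E} (h : ExtAt u j z) (h' : ExtAt u' j z)
    {m : ℝ → ℝ} (hm : ContDiff ℝ ∞ m) : ExtAt (fun z => u z + m (u' z - u z)) j z := by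
  obtain ⟨f, hf, h1⟩ := h
  obtain ⟨f', hf', h1'⟩ := h'
  refine ⟨fun z => f z + m (f' z - f z), ?_, ?_⟩
  · have a1 : ∀ᶠ z' in 𝓝 z, ContDiffAt ℝ ∞ f z' := hf
    have a2 : ∀ᶠ z' in 𝓝 z, ContDiffAt ℝ ∞ f' z' := hf'
    have : ∀ᶠ z' in 𝓝 z, ContDiffAt ℝ ∞ (fun z => f z + m (f' z - f z)) z' := by
      filter_upwards [a1, a2] with z' b1 b2
      exact b1.add (hm.contDiffAt.comp z' (b2.sub b1))
    exact this
  · filter_upwards [h1, h1'] with z' a b hW
    simp only [a hW, b hW]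

/-- extension in the first coordinate system gives extension in the others -/
theorem ext_pull {u : E → ℝ} {j : Fin 5} {z : E} (hj : j ≠ 1 ∨ z.2 ≠ 0)
    (h : ExtAt u 0 (tr j z)) : ExtAt u j z := by
  obtain ⟨f, hf, h1⟩ := h
  have hc := tr_cd hj
  have hct : ContinuousAt (tr j) z := hc.continuousAt
  have a1 : ∀ᶠ z' in 𝓝 z, ContDiffAt ℝ ∞ f (tr j z') := hct.eventually hf
  have a2 : ∀ᶠ z' in 𝓝 z, ContDiffAt ℂ ω (tr j) z' := hc.eventually (by simp)
  refine ⟨fun z' => f (tr j z'), ?_, ?_⟩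
  · have : ∀ᶠ z' in 𝓝 z, ContDiffAt ℝ ∞ (fun z' => f (tr j z')) z' := by
      filter_upwards [a1, a2] with z' b1 b2
      exact b1.comp z' (omega_real b2)
    exact this
  · filter_upwards [hct.eventually h1] with z' b hW
    exact b hW

/-! ### The function near the curve `y = 0` -/

theorem num4_pos {k : ℝ} (hk : 0 < k) {y r : ℂ} (h : y ≠ 0 ∨ r ≠ 0) :
    0 < ‖y - r‖ ^ 2 + k * ‖r‖ ^ 4 := by
  by_cases hr : r = 0
  · have := sq_pos (h.resolve_right (fun h => h hr))
    simp [hr]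
    exact this
  · have := norm_pos_iff.2 hr
    positivity

theorem log4_cd {k : ℝ} (hk : 0 < k) {z : E} (h : ‖red z.1‖ < 1 / 2)
    (h2 : z.2 ≠ 0 ∨ red z.1 ≠ 0) :
    ContDiffAt ℝ ∞ (fun t : E => Real.log (‖t.2 - red t.1‖ ^ 2 + k * ‖red t.1‖ ^ 4)) z := by
  have hr := red_cdR (n := ∞) h
  have h3 := num4_pos hk h2
  refine ContDiffAt.log ?_ h3.ne'
  have h4 : ContDiffAt ℝ ∞ (fun t : E => ‖red t.1‖ ^ 4) z := by
    have := (hr.norm_sq ℝ).pow 2
    refine this.congr_of_eventuallyEq (Eventually.of_forall fun t => ?_)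
    show ‖red t.1‖ ^ 4 = (‖red t.1‖ ^ 2) ^ 2
    ring
  exact ((contDiffAt_snd.sub hr).norm_sq ℝ).add (contDiffAt_const.mul h4)

/-- the extension of `near - Φ` in the first coordinate system -/
noncomputable def F0 (k C : ℝ) (z : E) : ℝ :=
  C * ‖z.2‖ ^ 2 - 3 * Real.log (1 + ‖z.2‖ ^ 2) +
    chi z.1 * (Real.log (‖z.2 - red z.1‖ ^ 2 + k * ‖red z.1‖ ^ 4) - L2 z)

theorem ne_of_V0 {z : E} (h : z ∈ V 0) : z.2 ≠ 0 ∨ red z.1 ≠ 0 := by
  rcases h with h | h
  · exact Or.inr (red_ne h)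
  · exact Or.inl h

theorem F0_cd {k C : ℝ} (hk : 0 < k) {z : E} (h : z ∈ V 0) : ContDiffAt ℝ ∞ (F0 k C) z := by
  unfold F0
  refine ContDiffAt.add (ContDiffAt.sub (contDiffAt_const.mul (contDiffAt_snd.norm_sq ℝ))
    (contDiffAt_const.mul (cd_log_1 contDiffAt_snd))) (chi_mul_cd le_rfl fun h1 => ?_)
  exact (log4_cd hk (by linarith) (ne_of_V0 h)).sub (L2_cd (by linarith) (ne_of_V0 h))

theorem near_log {k : ℝ} (hk : 0 < k) {y r : ℂ} (hr : r ≠ 0) :
    Real.log (‖y / r - 1‖ ^ 2 + k * ‖r‖ ^ 2) =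
      Real.log (‖y - r‖ ^ 2 + k * ‖r‖ ^ 4) - Real.log (‖r‖ ^ 2) := by
  have h1 := sq_pos hr
  rw [← Real.log_div (num4_pos hk (Or.inr hr)).ne' h1.ne']
  congr 1
  have h2 : y / r - 1 = (y - r) / r := by field_simp
  rw [h2, norm_div, div_pow]
  field_simp

theorem F0_eq {k C : ℝ} (hk : 0 < k) {z : E} (h : z ∈ W) : F0 k C z = near k C z - Phi z := by
  unfold F0 near Phi
  rw [near_log hk (red_ne h.1)]
  ring

theorem W_V0 {z : E} (h : z ∈ W) : z ∈ V 0 := Or.inl h.1

theorem N0 {k C : ℝ} (hk : 0 < k) {z : E} (h : z ∈ V 0) :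
    ExtAt (fun z => near k C z - Phi z) 0 z :=
  ext_of (V_open 0) h (F0 k C) (fun _ hz' => F0_cd hk hz') fun _ _ hW => F0_eq hk hW

theorem N2 {k C : ℝ} (hk : 0 < k) {z : E} (h : z ∈ V 2) :
    ExtAt (fun z => near k C z - Phi z) 2 z := by
  refine ext_of (V_open 2) h (fun z => C * ‖z.2 + z.1 * z.2‖ ^ 2 +
    Real.log (1 + k * ‖z.1 ^ 2 * z.2‖ ^ 2) - rho 2 z) (fun z' _ => ?_) fun z' hz' hW => ?_
  · refine ContDiffAt.sub (ContDiffAt.add (contDiffAt_const.mul
      ((contDiffAt_snd.add (contDiffAt_fst.mul contDiffAt_snd)).norm_sq ℝ)) ?_) (rho_cd 2 z')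
    exact (contDiffAt_const.add (contDiffAt_const.mul (((contDiffAt_fst.pow 2).mul
      contDiffAt_snd).norm_sq ℝ))).log (by positivity)
  · obtain ⟨h1, h2⟩ := ne_of_trW2 hW
    rw [rho2_eq hz' hW]
    have e1 : (tr 2 z').1 = z'.1 * z'.2 := rfl
    have e2 : (tr 2 z').2 = z'.2 + z'.1 * z'.2 := rfl
    unfold near
    rw [e1, e2, tr2_1 hz', chi_small hz'.1, one_mul]
    have p1 := sq_pos h1
    have h3 : (z'.2 + z'.1 * z'.2) / (z'.1 * z'.2) - 1 = z'.1⁻¹ := by
      field_simp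
      ring
    rw [h3]
    have h4 : ‖z'.1⁻¹‖ ^ 2 + k * ‖z'.1 * z'.2‖ ^ 2 =
        (1 + k * ‖z'.1 ^ 2 * z'.2‖ ^ 2) / ‖z'.1‖ ^ 2 := by
      simp only [norm_mul, norm_pow, norm_inv]
      field_simp
    rw [h4, Real.log_div (by positivity) (by positivity)]
    ring

theorem N3 {k C : ℝ} (hk : 0 < k) {z : E} (h : z ∈ V 3) :
    ExtAt (fun z => near k C z - Phi z) 3 z := by
  refine ext_of (V_open 3) h (fun z => C * ‖z.1 * z.2 ^ 2 + z.1 * z.2‖ ^ 2 +
    Real.log (1 + k * ‖z.1‖ ^ 2) - rho 3 z) (fun z' _ => ?_) fun z' hz' hW => ?_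
  · refine ContDiffAt.sub (ContDiffAt.add (contDiffAt_const.mul
      (((contDiffAt_fst.mul (contDiffAt_snd.pow 2)).add
        (contDiffAt_fst.mul contDiffAt_snd)).norm_sq ℝ)) ?_) (rho_cd 3 z')
    exact (contDiffAt_const.add (contDiffAt_const.mul (contDiffAt_fst.norm_sq ℝ))).log
      (by positivity)
  · obtain ⟨h1, h2⟩ := ne_of_trW3 hW
    rw [rho3_eq hz' hW]
    have e1 : (tr 3 z').1 = z'.1 * z'.2 := rfl
    have e2 : (tr 3 z').2 = z'.1 * z'.2 ^ 2 + z'.1 * z'.2 := rfl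
    unfold near
    rw [e1, e2, tr3_1 hz', chi_small hz'.1, one_mul]
    have p2 := sq_pos h2
    have h3 : (z'.1 * z'.2 ^ 2 + z'.1 * z'.2) / (z'.1 * z'.2) - 1 = z'.2 := by
      field_simp
      ring
    rw [h3]
    have h4 : ‖z'.2‖ ^ 2 + k * ‖z'.1 * z'.2‖ ^ 2 = (1 + k * ‖z'.1‖ ^ 2) * ‖z'.2‖ ^ 2 := by
      simp only [norm_mul]
      ring
    rw [h4, Real.log_mul (by positivity) (by positivity)]
    ring

theorem N4 {k C : ℝ} (hk : 0 < k) {z : E} (h : z ∈ V 4) :
    ExtAt (fun z => near k C z - Phi z) 4 z := by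
  refine ext_of (V_open 4) h (fun z => C * ‖z.1 ^ 2 * z.2 + z.1‖ ^ 2 +
    Real.log (k + ‖z.2‖ ^ 2) - rho 4 z) (fun z' _ => ?_) fun z' hz' hW => ?_
  · refine ContDiffAt.sub (ContDiffAt.add (contDiffAt_const.mul
      ((((contDiffAt_fst.pow 2).mul contDiffAt_snd).add contDiffAt_fst).norm_sq ℝ)) ?_)
      (rho_cd 4 z')
    exact (contDiffAt_const.add (contDiffAt_snd.norm_sq ℝ)).log (by positivity)
  · have h1 := ne_of_trW4 hW
    rw [rho4_eq hz' hW]
    have e1 : (tr 4 z').1 = z'.1 := rfl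
    have e2 : (tr 4 z').2 = z'.1 ^ 2 * z'.2 + z'.1 := rfl
    unfold near
    rw [e1, e2, tr4_1 hz', chi_small hz'.1, one_mul]
    have p1 := sq_pos h1
    have h3 : (z'.1 ^ 2 * z'.2 + z'.1) / z'.1 - 1 = z'.1 * z'.2 := by
      field_simp
      ring
    rw [h3]
    have h4 : ‖z'.1 * z'.2‖ ^ 2 + k * ‖z'.1‖ ^ 2 = (k + ‖z'.2‖ ^ 2) * ‖z'.1‖ ^ 2 := by
      simp only [norm_mul]
      ring
    rw [h4, Real.log_mul (by positivity) (by positivity)]
    ring

theorem near_ext {k C : ℝ} (hk : 0 < k) {j : Fin 5} {z : E} (h : z ∈ V j)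
    (hj : j ≠ 1 ∨ z.2 ≠ 0) : ExtAt (fun z => near k C z - Phi z) j z := by
  fin_cases j
  · exact N0 hk h
  · have hz : z.2 ≠ 0 := hj.resolve_left (fun h => h rfl)
    exact ext_pull (j := 1) (Or.inr hz) (N0 hk (Or.inr (inv_ne_zero hz)))
  · exact N2 hk h
  · exact N3 hk h
  · exact N4 hk h

/-! ### The function far from the curve `y = 0` -/

/-- the function `- G + χ log |x|²`, extended to the lattice -/
noncomputable def g0 (G h : ℂ → ℝ) (x : ℂ) : ℝ :=
  open scoped Classical in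
  if x ∈ Lam then - h 0 else - G x + chi x * Real.log (‖red x‖ ^ 2)

theorem G_red {G h : ℂ → ℝ} {c : ℝ} (hG : IsGreen G h c) (x : ℂ) : G x = G (red x) := by
  have h1 := hG.per (red x) (x - red x) (sub_red x)
  rw [← h1]
  congr 1
  ring

theorem g0_near {G h : ℂ → ℝ} {c : ℝ} (hG : IsGreen G h c) {x : ℂ} (hx : ‖red x‖ < 1 / 8) :
    g0 G h x = - h (red x) := by
  unfold g0
  split_ifs with h1
  · rw [red_eq_zero.2 h1]
  · rw [chi_one hx.le, one_mul, G_red hG, hG.eq (red x) (by linarith) (red_ne h1)]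
    ring

theorem g0_cd {G h : ℂ → ℝ} {c : ℝ} (hG : IsGreen G h c) (z : E) :
    ContDiffAt ℝ ∞ (fun t : E => g0 G h t.1) z := by
  rcases lt_or_ge (‖red z.1‖) (1 / 8) with h1 | h1
  · have h2 : (fun t : E => g0 G h t.1) =ᶠ[𝓝 z] fun t => - h (red t.1) := by
      filter_upwards [(red_open (c := 1 / 8)).mem_nhds h1] with t ht
      exact g0_near hG ht
    refine ContDiffAt.congr_of_eventuallyEq ?_ h2
    have h3 : ContDiffAt ℝ ∞ h (red z.1) := hG.smooth_h _ (by linarith)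
    exact (h3.comp z (f := fun t : E => red t.1) (red_cdR (by linarith))).neg
  · have hz : z.1 ∉ Lam := fun h2 => by
      rw [red_eq_zero.2 h2, norm_zero] at h1
      norm_num at h1
    have hO : IsOpen {t : E | t.1 ∉ Lam} := Lam_closed.isOpen_compl.preimage continuous_fst
    have h2 : (fun t : E => g0 G h t.1) =ᶠ[𝓝 z]
        fun t => - G t.1 + chi t.1 * Real.log (‖red t.1‖ ^ 2) := by
      filter_upwards [hO.mem_nhds hz] with t ht
      unfold g0
      rw [if_neg ht]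
    refine ContDiffAt.congr_of_eventuallyEq ?_ h2
    refine ContDiffAt.add ?_ (chi_mul_cd le_rfl fun h3 => log_red_cd (by linarith) (red_ne hz))
    exact ((hG.smooth z.1 hz).comp z contDiffAt_fst).neg

theorem far0 {G h : ℂ → ℝ} {c A : ℝ} (hG : IsGreen G h c) {z : E} (hz : z.2 ≠ 0) :
    ExtAt (fun z => far G A z - Phi z) 0 z := by
  have hO : IsOpen {t : E | t.2 ≠ 0} := isClosed_singleton.isOpen_compl.preimage continuous_snd
  refine ext_of hO hz (fun z => 5 / 2 * Real.log (‖z.2‖ ^ 2) - 5 / 2 * Real.log (1 + ‖z.2‖ ^ 2) +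
    A + g0 G h z.1 - chi z.1 * L2 z) (fun t ht => ?_) fun t _ hW => ?_
  · refine ContDiffAt.sub (ContDiffAt.add (ContDiffAt.add (ContDiffAt.sub
      (contDiffAt_const.mul (cd_log_snd ht)) (contDiffAt_const.mul (cd_log_1 contDiffAt_snd)))
      contDiffAt_const) (g0_cd hG t)) (chi_mul_cd le_rfl fun h3 => ?_)
    exact L2_cd (by linarith) (Or.inl ht)
  · have e : tr 0 t = t := rfl
    rw [e] at hW ⊢
    unfold far Phi g0
    rw [if_neg hW.1]
    ring

theorem far1 {G h : ℂ → ℝ} {c A : ℝ} (hG : IsGreen G h c) (z : E) :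
    ExtAt (fun z => far G A z - Phi z) 1 z := by
  refine ext_of isOpen_univ (mem_univ z) (fun z => -(5 / 2) * Real.log (1 + ‖z.2‖ ^ 2) +
    A + g0 G h z.1 - chi z.1 * L2' z) (fun t _ => ?_) fun t _ hW => ?_
  · refine ContDiffAt.sub (ContDiffAt.add (ContDiffAt.add
      (contDiffAt_const.mul (cd_log_1 contDiffAt_snd)) contDiffAt_const) (g0_cd hG t))
      (chi_mul_cd le_rfl fun h3 => ?_)
    exact L2'_cd (by linarith)
  · have ht : t.2 ≠ 0 := (W_ne hW).resolve_left (by simp)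
    have hx : t.1 ∉ Lam := hW.1
    unfold far Phi g0
    rw [if_neg hx, L2_inv ht]
    have e1 : (tr 1 t).1 = t.1 := rfl
    have e2 : (tr 1 t).2 = t.2⁻¹ := rfl
    rw [e1, e2, log_inv_1 ht]
    have e3 : Real.log (‖t.2⁻¹‖ ^ 2) = - Real.log (‖t.2‖ ^ 2) := by
      rw [norm_inv, inv_pow, Real.log_inv]
    rw [e3]
    ring

theorem far_ext {G h : ℂ → ℝ} {c A : ℝ} (hG : IsGreen G h c) {j : Fin 5} {z : E}
    (hj : j = 1 ∨ (tr j z).2 ≠ 0) : ExtAt (fun z => far G A z - Phi z) j z := by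
  by_cases h1 : j = 1
  · rw [h1]
    exact far1 hG z
  · exact ext_pull (Or.inl h1) (far0 hG (hj.resolve_left h1))

/-! ### The Levi forms -/

theorem lap_lv {G : ℂ → ℝ} {x : ℂ} (hG : ContDiffAt ℝ 2 G x) (v : ℂ) :
    lv G x v = ‖v‖ ^ 2 * Laplacian.laplacian G x := by
  have h1 := lv_hom v (1 : ℂ) hG
  rw [smul_eq_mul, mul_one] at h1
  rw [h1, lv_eq _ hG, lap_def, iteratedFDeriv_two_apply, iteratedFDeriv_two_apply]
  simp

theorem far_cd {G h : ℂ → ℝ} {c A : ℝ} (hG : IsGreen G h c) {z : E} (hz : z ∈ W) :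
    ContDiffAt ℝ ∞ (far G A) z := by
  unfold far
  exact ContDiffAt.add (ContDiffAt.sub (ContDiffAt.add (contDiffAt_const.mul (cd_log_snd hz.2))
    (contDiffAt_const.mul (cd_log_1 contDiffAt_snd))) ((hG.smooth z.1 hz.1).comp z contDiffAt_fst))
    contDiffAt_const

theorem near_cd {k C : ℝ} (hk : 0 < k) {z : E} (hz : z ∈ W) : ContDiffAt ℝ ∞ (near k C) z := by
  have h1 : near k C =ᶠ[𝓝 z] fun t => F0 k C t + Phi t := by
    filter_upwards [W_open.mem_nhds hz] with t ht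
    rw [F0_eq hk ht]
    ring
  exact ((F0_cd hk (W_V0 hz)).add (Phi_cd hz.1)).congr_of_eventuallyEq h1

theorem far_lev {G h : ℂ → ℝ} {c A : ℝ} (hG : IsGreen G h c) {z : E} (hz : z ∈ W) (v : E) :
    0 ≤ lev (far G A) z v := by
  have hGx : ContDiffAt ℝ 2 G z.1 := (hG.smooth z.1 hz.1).of_le two_le
  have a1 : ContDiffAt ℝ 2 (fun t : E => Real.log (‖t.2‖ ^ 2)) z := cd_log_snd hz.2
  have a2 : ContDiffAt ℝ 2 (fun t : E => Real.log (1 + ‖t.2‖ ^ 2)) z := cd_log_1 contDiffAt_snd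
  have a3 : ContDiffAt ℝ 2 (fun t : E => G t.1) z := hGx.comp z contDiffAt_fst
  have e1 : lev (far G A) z v = lv (fun t : E => 5 / 2 * Real.log (‖t.2‖ ^ 2) +
      1 / 2 * Real.log (1 + ‖t.2‖ ^ 2) - G t.1 + A) z v := rfl
  rw [e1, lv_add_const v A (((contDiffAt_const.mul a1).add (contDiffAt_const.mul a2)).sub a3),
    lv_sub v ((contDiffAt_const.mul a1).add (contDiffAt_const.mul a2)) a3,
    lv_add v (contDiffAt_const.mul a1) (contDiffAt_const.mul a2), lv_smul v _ a1, lv_smul v _ a2,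
    lv_log_snd v hz.2, lv_log_1 v contDiffAt_snd]
  have e2 : lv (fun t : E => G t.1) z v = lv G z.1 (fderiv ℂ (fun t : E => t.1) z v) :=
    lv_comp (ρ := G) (g := fun t : E => t.1) contDiffAt_fst hGx
  rw [e2, lap_lv hGx, hG.lap z.1 hz.1]
  have := hG.pos
  have h3 : 0 ≤ 4 * ‖fderiv ℂ (fun t : E => t.2) z v‖ ^ 2 / (1 + ‖z.2‖ ^ 2) ^ 2 := by positivity
  have h4 : 0 ≤ ‖fderiv ℂ (fun t : E => t.1) z v‖ ^ 2 * c := by positivity
  linarith

theorem near_per (k C : ℝ) : Per (near k C) := by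
  intro x y l hl
  unfold near
  simp only [red_add x hl, chi_per x hl]

theorem far_per {G h : ℂ → ℝ} {c A : ℝ} (hG : IsGreen G h c) : Per (far G A) := by
  intro x y l hl
  unfold far
  simp only [hG.per x l hl]

theorem nm_nonneg (z v : E) : 0 ≤ nm z v := by
  unfold nm
  positivity

/-- the class `α` is nef -/
theorem t_Nef (hM : StMax) (hN : StNear) (hC : StComp) : StNef := by
  intro G h c hG ε hε
  obtain ⟨m, hm, hm0, hm1, hmax⟩ := hM
  obtain ⟨k, C, η, hk, hk1, hC0, hη, hnear⟩ := hN ε hε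
  obtain ⟨A, η1, η2, h01, h12, h2η, hc1, hc2⟩ := hC G h c hG k C η hk hk1 hC0 hη
  obtain ⟨U, hU⟩ : ∃ U : E → ℝ, U = fun z => if ‖z.2‖ < η then
    near k C z + m (far G A z - near k C z) else far G A z := ⟨_, rfl⟩
  have u1 : ∀ z ∈ W, ‖z.2‖ < η1 → U z = near k C z := by
    intro z hz h1
    rw [hU]
    show (if ‖z.2‖ < η then near k C z + m (far G A z - near k C z) else far G A z) = _
    rw [if_pos (by linarith), hm0 _ (by linarith [hc1 z hz h1.le]), add_zero]
  have u2 : ∀ z ∈ W, η2 < ‖z.2‖ → U z = far G A z := by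
    intro z hz h1
    rw [hU]
    show (if ‖z.2‖ < η then near k C z + m (far G A z - near k C z) else far G A z) = _
    split_ifs with h2
    · rw [hm1 _ (by linarith [hc2 z hz h1.le h2.le])]
      ring
    · rfl
  have u3 : ∀ z : E, ‖z.2‖ < η → U z = near k C z + m (far G A z - near k C z) := by
    intro z h1
    rw [hU]
    show (if ‖z.2‖ < η then near k C z + m (far G A z - near k C z) else far G A z) = _
    rw [if_pos h1]
  refine ⟨U, ?_, ?_, ?_⟩
  · intro x y l hl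
    rw [hU]
    show (if ‖y‖ < η then near k C (x + l, y) + m (far G A (x + l, y) - near k C (x + l, y)) else
      far G A (x + l, y)) = if ‖y‖ < η then near k C (x, y) + m (far G A (x, y) - near k C (x, y))
      else far G A (x, y)
    rw [near_per k C x y l hl, far_per hG x y l hl]
  · intro j z hz
    by_cases hj : j = 1 ∧ z.2 = 0
    · obtain ⟨rfl, hz0⟩ := hj
      refine ext_congr (far_ext (A := A) hG (j := 1) (Or.inl rfl)) ?_
      have hO : IsOpen {t : E | ‖t.2‖ * η < 1} :=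
        isOpen_lt (by fun_prop) continuous_const
      have hz1 : z ∈ {t : E | ‖t.2‖ * η < 1} := by
        show ‖z.2‖ * η < 1
        rw [hz0, norm_zero, zero_mul]
        exact one_pos
      filter_upwards [hO.mem_nhds hz1] with t ht hW
      have ht' : ‖t.2‖ * η < 1 := ht
      have ht0 : t.2 ≠ 0 := (W_ne hW).resolve_left (by simp)
      have hp : 0 < ‖t.2‖ := norm_pos_iff.2 ht0
      have hbig : η2 < ‖(tr 1 t).2‖ := by
        have e2 : (tr 1 t).2 = t.2⁻¹ := rfl
        rw [e2, norm_inv]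
        have : η < ‖t.2‖⁻¹ := by
          rw [lt_inv_comm₀ hη hp, inv_eq_one_div, lt_div_iff₀ hη]
          exact ht'
        linarith
      show far G A (tr 1 t) - Phi (tr 1 t) = U (tr 1 t) - Phi (tr 1 t)
      rw [u2 _ hW hbig]
    · have hfin : j ≠ 1 ∨ z.2 ≠ 0 := by
        by_cases h1 : j = 1
        · exact Or.inr fun h2 => hj ⟨h1, h2⟩
        · exact Or.inl h1
      have hct : ContinuousAt (fun z' => ‖(tr j z').2‖) z :=
        ((tr_cd hfin).continuousAt.snd).norm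
      rcases lt_or_ge (‖(tr j z).2‖) η1 with q1 | q1
      · refine ext_congr (near_ext (C := C) hk hz hfin) ?_
        filter_upwards [hct.eventually_lt continuousAt_const q1] with t ht hW
        show near k C (tr j t) - Phi (tr j t) = U (tr j t) - Phi (tr j t)
        rw [u1 _ hW ht]
      · have hy : (tr j z).2 ≠ 0 := by
          intro h0
          rw [h0, norm_zero] at q1
          linarith
        rcases lt_or_ge η2 (‖(tr j z).2‖) with q2 | q2
        · refine ext_congr (far_ext (A := A) hG (j := j) (Or.inr hy)) ?_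
          filter_upwards [(continuousAt_const (y := η2)).eventually_lt hct q2] with t ht hW
          show far G A (tr j t) - Phi (tr j t) = U (tr j t) - Phi (tr j t)
          rw [u2 _ hW ht]
        · refine ext_congr (ext_max (near_ext (C := C) hk hz hfin)
            (far_ext (A := A) hG (j := j) (Or.inr hy)) hm) ?_
          have q3 : ‖(tr j z).2‖ < η := lt_of_le_of_lt q2 h2η
          filter_upwards [hct.eventually_lt continuousAt_const q3] with t ht _
          show near k C (tr j t) - Phi (tr j t) + m (far G A (tr j t) - Phi (tr j t) -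
            (near k C (tr j t) - Phi (tr j t))) = U (tr j t) - Phi (tr j t)
          rw [u3 _ ht]
          have e : far G A (tr j t) - Phi (tr j t) - (near k C (tr j t) - Phi (tr j t)) =
            far G A (tr j t) - near k C (tr j t) := by ring
          rw [e]
          ring
  · intro z hz v
    have hct : ContinuousAt (fun z' : E => ‖z'.2‖) z := by fun_prop
    have hnm := nm_nonneg z v
    rcases lt_or_ge (‖z.2‖) η with q | q
    · have h1 : U =ᶠ[𝓝 z] fun t => near k C t + m (far G A t - near k C t) := by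
        filter_upwards [hct.eventually_lt continuousAt_const q] with t ht
        exact u3 t ht
      rw [lev_lv, lv_congr v h1, ← lev_lv]
      refine hmax (far G A) (near k C) z v _ ((far_cd hG hz).of_le two_le)
        ((near_cd hk hz).of_le two_le) ?_ (hnear z hz q v)
      have := far_lev (A := A) hG hz v
      have h3 : 0 ≤ ε * nm z v := by positivity
      linarith
    · have h1 : U =ᶠ[𝓝 z] far G A := by
        filter_upwards [(continuousAt_const (y := η2)).eventually_lt hct (by linarith),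
          W_open.mem_nhds hz] with t ht hW
        exact u2 t hW ht
      rw [lev_lv, lv_congr v h1, ← lev_lv]
      have := far_lev (A := A) hG hz v
      have h3 : 0 ≤ ε * nm z v := by positivity
      linarith

end Pool.Agent.U674.SP
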